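import Pool.Agent.W800.BK.Ball

/-!
# S_ATOM: upper bound for step functions
-/

open Polynomial Topology Filter MeasureTheory

namespace Pool.Agent.W800.BK.Atom

open Pool.Agent.W95.BK Pool.Agent.W800.BK

universe u

section
variable {K : Type u} [NontriviallyNormedField K]

open Classical in
/-- the step function -/
noncomputable def V (F : Finset (K × ℝ)) (c₀ : ℝ) (c : K × ℝ → ℝ) (x : P1B K) : ℝ :=
  c₀ + ∑ p ∈ F, if x ∈ ball p.1 p.2 then c p else 0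

lemma V_erase [DecidableEq (K × ℝ)] {F : Finset (K × ℝ)} {p : K × ℝ} (hp : p ∈ F) (c₀ : ℝ)
    (c : K × ℝ → ℝ) (x : P1B K) (hx : x ∉ ball p.1 p.2) : V (F.erase p) c₀ c x = V F c₀ c x := by
  classical
  unfold V
  rw [← Finset.add_sum_erase F _ hp, if_neg hx, zero_add]

lemma V_erase' [DecidableEq (K × ℝ)] {F : Finset (K × ℝ)} {p : K × ℝ} (hp : p ∈ F) (c₀ : ℝ)
    (c : K × ℝ → ℝ) (x : P1B K) (hx : x ∈ ball p.1 p.2) :
    V F c₀ c x = c p + V (F.erase p) c₀ c x := by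
  classical
  unfold V
  rw [← Finset.add_sum_erase F _ hp, if_pos hx]
  ring

lemma V_congr (F : Finset (K × ℝ)) (c₀ : ℝ) (c : K × ℝ → ℝ) (x y : P1B K)
    (h : ∀ p ∈ F, x ∈ ball p.1 p.2 ↔ y ∈ ball p.1 p.2) : V F c₀ c x = V F c₀ c y := by
  classical
  unfold V
  congr 1
  refine Finset.sum_congr rfl fun p hp => ?_
  by_cases hx : x ∈ ball p.1 p.2
  · rw [if_pos hx, if_pos ((h p hp).1 hx)]
  · rw [if_neg hx, if_neg (fun hy => hx ((h p hp).2 hy))]

lemma Nw_le [IsUltrametricDist K] (f : RMap K) (a : K) (r : ℝ) : Nw f a r ≤ f.d := by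
  unfold Nw
  by_cases h : ({i | i ≤ f.d ∧ vI f a r i = Mx f a r} : Set ℕ).Nonempty
  · exact (Nat.sInf_mem h).1
  · rw [Set.not_nonempty_iff_eq_empty.1 h]
    simp

theorem strong [IsUltrametricDist K] [IsAlgClosed K] (hC : S_C.{u}) (hI : S_ISO.{u})
    (hG : S_GLAM.{u}) (f : RMap K) (c₀ : ℝ) (c : K × ℝ → ℝ) : ∀ (F : Finset (K × ℝ)),
    (∀ p ∈ F, 0 < p.2) →
    (∀ p ∈ F, ∀ q ∈ F, p ≠ q → ¬ (p.2 = q.2 ∧ ‖p.1 - q.1‖ < p.2)) →
    (∀ x : P1B K, 0 ≤ V F c₀ c x) →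
    ∀ (I : Finset (BA K)) (J : Finset (K × ℝ)), (∀ x ∈ I, XF f x) → (∀ q ∈ J, 0 < q.2) →
    (∀ p ∈ J, ∀ q ∈ J, p ≠ q → max p.2 q.2 ≤ ‖p.1 - q.1‖) →
    (∀ x ∈ I, ∀ q ∈ J, q.2 ≤ lam x q.1) →
    (∀ q ∈ J, ∀ p ∈ F, (‖q.1 - p.1‖ < p.2 ∧ q.2 ≤ p.2) ∨ max q.2 p.2 ≤ ‖q.1 - p.1‖) →
    ∑ x ∈ I, ((localDeg f (x : P1B K) : ℝ) - 1) * V F c₀ c (x : P1B K) +
      ∑ q ∈ J, (Nw f q.1 q.2 : ℝ) * V F c₀ c ((cl q.1 : BA K) : P1B K) ≤
    c₀ * f.d + ∑ p ∈ F, c p * Nw f p.1 p.2 := by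
  classical
  intro F
  induction F using Finset.strongInduction with
  | H F ih =>
  intro hpos hdis hV I J hXF hJ0 hJd hIJ hJF
  have cast1 : ∀ I' ⊆ I, ((∑ x ∈ I', (localDeg f (x : P1B K) - 1) : ℕ) : ℝ) =
      ∑ x ∈ I', ((localDeg f (x : P1B K) : ℝ) - 1) := by
    intro I' hI'
    rw [Nat.cast_sum]
    refine Finset.sum_congr rfl fun x hx => ?_
    have := (hXF x (hI' hx)).2.2
    rw [Nat.cast_sub (by omega)]
    simp
  rcases F.eq_empty_or_nonempty with rfl | hne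
  · have hVc : ∀ x : P1B K, V (∅ : Finset (K × ℝ)) c₀ c x = c₀ := fun x => by simp [V]
    have hc0 : 0 ≤ c₀ := by rw [← hVc OnePoint.infty]; exact hV _
    simp only [hVc, Finset.sum_empty, add_zero]
    rw [← Finset.sum_mul, ← Finset.sum_mul, ← add_mul, mul_comm c₀]
    refine mul_le_mul_of_nonneg_right ?_ hc0
    -- a huge disc
    obtain ⟨r₁, hr₁⟩ : ∃ r₁ : ℝ, ∀ x ∈ I, lam x 0 < r₁ := by
      refine ⟨∑ x ∈ I, lam x 0 + 1, fun x hx => ?_⟩
      have : lam x 0 ≤ ∑ x ∈ I, lam x 0 :=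
        Finset.single_le_sum (f := fun x : BA K => lam x 0) (fun y _ => y.nonneg' _) hx
      linarith
    obtain ⟨r₂, hr₂⟩ : ∃ r₂ : ℝ, ∀ p ∈ J, ‖p.1‖ + p.2 < r₂ := by
      refine ⟨∑ p ∈ J, (‖p.1‖ + p.2) + 1, fun p hp => ?_⟩
      have : ‖p.1‖ + p.2 ≤ ∑ p ∈ J, (‖p.1‖ + p.2) :=
        Finset.single_le_sum (f := fun p : K × ℝ => ‖p.1‖ + p.2)
          (fun y hy => add_nonneg (norm_nonneg _) (hJ0 y hy).le) hp
      linarith
    have key := hC K f I J 0 (max 1 (max r₁ r₂)) hXF hJ0 hJd hIJ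
      (fun x hx => lt_of_lt_of_le (hr₁ x hx) (le_trans (le_max_left _ _) (le_max_right _ _)))
      (fun p hp => by
        have h1 := hr₂ p hp
        have h2 : r₂ ≤ max 1 (max r₁ r₂) := le_trans (le_max_right _ _) (le_max_right _ _)
        have h3 := norm_nonneg p.1
        have h4 := hJ0 p hp
        rw [sub_zero]
        constructor <;> linarith)
      (lt_of_lt_of_le one_pos (le_max_left _ _))
    have key2 : ((∑ x ∈ I, (localDeg f (x : P1B K) - 1) + ∑ p ∈ J, Nw f p.1 p.2 : ℕ) : ℝ) ≤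
        (f.d : ℝ) := by
      exact_mod_cast key.trans (Nw_le f _ _)
    rw [Nat.cast_add, cast1 I (Finset.Subset.refl _), Nat.cast_sum] at key2
    exact key2
  obtain ⟨p, hpF, hmin⟩ := F.exists_min_image (fun q => q.2) hne
  have hp := hpos p hpF
  set z : P1B K := ((gauss p.1 p.2 hp : BA K) : P1B K) with hz
  set κ : P1B K := ((cl p.1 : BA K) : P1B K) with hκ
  have hκp : κ ∈ ball p.1 p.2 := by
    rw [hκ, cl_mem hG]; simpa using hp
  have hzp : z ∉ ball p.1 p.2 := bd_notMem hG hp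
  set F' := F.erase p with hF'
  set v := V F c₀ c with hv
  set v' := V F' c₀ c with hv'
  have hv1 : ∀ x, x ∉ ball p.1 p.2 → v' x = v x := fun x hx => V_erase hpF c₀ c x hx
  have hv2 : ∀ x, x ∈ ball p.1 p.2 → v x = v κ := by
    intro x hx
    refine V_congr F c₀ c x κ fun q hq => ?_
    rw [pat_in hI (hmin q hq) hx, pat_in hI (hmin q hq) hκp]
  have hv3 : v κ = c p + v' κ := V_erase' hpF c₀ c κ hκp
  have hv4 : ∀ x, x ∈ ball p.1 p.2 → v' x = v z := by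
    intro x hx
    rw [← hv1 z hzp]
    refine V_congr F' c₀ c x z fun q hq => ?_
    obtain ⟨hqp, hqF⟩ := Finset.mem_erase.1 hq
    rw [hz, pat_bd hG hp (hmin q hqF) (hdis p hpF q hqF (Ne.symm hqp)),
        pat_in hI (hmin q hqF) hx]
  have hV' : ∀ x, 0 ≤ v' x := by
    intro x
    by_cases hx : x ∈ ball p.1 p.2
    · rw [hv4 x hx]; exact hV z
    · rw [hv1 x hx]; exact hV x
  -- the parts in the disc `p`
  set Ip := I.filter (fun x => lam x p.1 < p.2) with hIp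
  set Io := I.filter (fun x => ¬ lam x p.1 < p.2) with hIo
  set Jp := J.filter (fun q => ‖q.1 - p.1‖ < p.2 ∧ q.2 ≤ p.2) with hJp
  set Jo := J.filter (fun q => ¬ (‖q.1 - p.1‖ < p.2 ∧ q.2 ≤ p.2)) with hJo
  have hJo2 : ∀ q ∈ Jo, q ∈ J ∧ max q.2 p.2 ≤ ‖q.1 - p.1‖ := by
    intro q hq
    obtain ⟨hq1, hq2⟩ := Finset.mem_filter.1 hq
    exact ⟨hq1, (hJF q hq1 p hpF).resolve_left hq2⟩
  have hpJo : p ∉ Jo := by
    intro h
    have := (hJo2 p h).2
    rw [sub_self, norm_zero, max_self] at this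
    linarith
  have kC := hC K f Ip Jp p.1 p.2 (fun x hx => hXF x (Finset.mem_filter.1 hx).1)
    (fun q hq => hJ0 q (Finset.mem_filter.1 hq).1)
    (fun q hq q' hq' => hJd q (Finset.mem_filter.1 hq).1 q' (Finset.mem_filter.1 hq').1)
    (fun x hx q hq => hIJ x (Finset.mem_filter.1 hx).1 q (Finset.mem_filter.1 hq).1)
    (fun x hx => (Finset.mem_filter.1 hx).2) (fun q hq => (Finset.mem_filter.1 hq).2) hp
  have kC2 : ∑ x ∈ Ip, ((localDeg f (x : P1B K) : ℝ) - 1) + ∑ q ∈ Jp, (Nw f q.1 q.2 : ℝ) ≤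
      (Nw f p.1 p.2 : ℝ) := by
    rw [← cast1 Ip (Finset.filter_subset _ _), ← Nat.cast_sum, ← Nat.cast_add]
    exact_mod_cast kC
  have kI := ih F' (Finset.erase_ssubset hpF) (fun q hq => hpos q (Finset.mem_of_mem_erase hq))
    (fun q hq q' hq' => hdis q (Finset.mem_of_mem_erase hq) q' (Finset.mem_of_mem_erase hq'))
    hV' Io (insert p Jo) (fun x hx => hXF x (Finset.mem_filter.1 hx).1)
    (fun q hq => by
      rcases Finset.mem_insert.1 hq with rfl | hq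
      · exact hp
      · exact hJ0 q (hJo2 q hq).1)
    (fun q hq q' hq' hne => by
      rcases Finset.mem_insert.1 hq with rfl | hq
      · rcases Finset.mem_insert.1 hq' with rfl | hq'
        · exact absurd rfl hne
        · have := (hJo2 q' hq').2
          rwa [max_comm, norm_sub_rev]
      · rcases Finset.mem_insert.1 hq' with rfl | hq'
        · exact (hJo2 q hq).2
        · exact hJd q (hJo2 q hq).1 q' (hJo2 q' hq').1 hne)
    (fun x hx q hq => by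
      rcases Finset.mem_insert.1 hq with rfl | hq
      · exact not_lt.1 (Finset.mem_filter.1 hx).2
      · exact hIJ x (Finset.mem_filter.1 hx).1 q (hJo2 q hq).1)
    (fun q hq q' hq' => by
      have hq'F := Finset.mem_of_mem_erase hq'
      rcases Finset.mem_insert.1 hq with rfl | hq
      · rcases lt_or_ge ‖q.1 - q'.1‖ q'.2 with h | h
        · exact Or.inl ⟨h, hmin q' hq'F⟩
        · exact Or.inr (max_le (le_trans (hmin q' hq'F) h) h)
      · exact hJF q (hJo2 q hq).1 q' hq'F)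
  rw [Finset.sum_insert hpJo] at kI
  -- compare
  have e1 : ∑ x ∈ I, ((localDeg f (x : P1B K) : ℝ) - 1) * v (x : P1B K) =
      (∑ x ∈ Ip, ((localDeg f (x : P1B K) : ℝ) - 1)) * v κ +
      ∑ x ∈ Io, ((localDeg f (x : P1B K) : ℝ) - 1) * v' (x : P1B K) := by
    rw [← Finset.sum_filter_add_sum_filter_not I (fun x => lam x p.1 < p.2), Finset.sum_mul]
    congr 1
    · refine Finset.sum_congr rfl fun x hx => ?_
      rw [hv2 _ (coe_mem_ball.2 (Finset.mem_filter.1 hx).2)]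
    · refine Finset.sum_congr rfl fun x hx => ?_
      rw [hv1 _ (fun h => (Finset.mem_filter.1 hx).2 (coe_mem_ball.1 h))]
  have e2 : ∑ q ∈ J, (Nw f q.1 q.2 : ℝ) * v ((cl q.1 : BA K) : P1B K) =
      (∑ q ∈ Jp, (Nw f q.1 q.2 : ℝ)) * v κ +
      ∑ q ∈ Jo, (Nw f q.1 q.2 : ℝ) * v' ((cl q.1 : BA K) : P1B K) := by
    rw [← Finset.sum_filter_add_sum_filter_not J (fun q => ‖q.1 - p.1‖ < p.2 ∧ q.2 ≤ p.2),
      Finset.sum_mul]
    congr 1
    · refine Finset.sum_congr rfl fun q hq => ?_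
      rw [hv2 _ ((cl_mem hG).2 (Finset.mem_filter.1 hq).2.1)]
    · refine Finset.sum_congr rfl fun q hq => ?_
      rw [hv1]
      intro h
      have h1 := (cl_mem hG).1 h
      have h2 := (hJo2 q hq).2
      exact absurd (lt_of_le_of_lt (le_trans (le_max_right _ _) h2) h1) (lt_irrefl _)
  have e3 : ∑ q ∈ F, c q * Nw f q.1 q.2 = c p * Nw f p.1 p.2 + ∑ q ∈ F', c q * Nw f q.1 q.2 :=
    (Finset.add_sum_erase F _ hpF).symm
  have e4 := mul_le_mul_of_nonneg_right kC2 (hV κ)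
  rw [e1, e2, e3]
  rw [add_mul] at e4
  have e5 : (Nw f p.1 p.2 : ℝ) * v κ = (Nw f p.1 p.2 : ℝ) * v' κ + c p * Nw f p.1 p.2 := by
    rw [hv3]; ring
  change _ ≤ (Nw f p.1 p.2 : ℝ) * v κ at e4
  change (∑ x ∈ Ip, ((localDeg f (x : P1B K) : ℝ) - 1)) * v κ +
    (∑ q ∈ Jp, (Nw f q.1 q.2 : ℝ)) * v κ ≤ (Nw f p.1 p.2 : ℝ) * v κ at e4
  linarith

end

open Classical in
theorem main (hC : S_C.{u}) (hI : S_ISO.{u}) (hG : S_GLAM.{u}) : S_ATOM.{u} := by
  intro K _ _ _ f F hpos hdis c₀ c hV I hXF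
  have := strong hC hI hG f c₀ c F hpos hdis hV I ∅ hXF (by simp) (by simp) (by simp) (by simp)
  simpa [V] using this

end Pool.Agent.W800.BK.Atom
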