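import Pool.Agent.W95.BK.Stm

/-!
# Discs of the Berkovich line (project BK): patterns of discs
-/

open Polynomial Topology Filter MeasureTheory

namespace Pool.Agent.W800.BK

open Pool.Agent.W95.BK

universe u

section
variable {K : Type u} [NontriviallyNormedField K]

lemma coe_mem_ball {y : BA K} {a : K} {r : ℝ} : (y : P1B K) ∈ ball a r ↔ lam y a < r := by
  constructor
  · rintro ⟨z, hz, h⟩
    rw [OnePoint.coe_eq_coe] at hz
    rw [hz]; exact h
  · intro h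
    exact ⟨y, rfl, h⟩

/-- points of the disc `p` lie in a disc `q` of larger radius iff the centres are close -/
lemma pat_in (hI : S_ISO.{u}) {p q : K × ℝ} (hpq : p.2 ≤ q.2) {x : P1B K}
    (hx : x ∈ ball p.1 p.2) : x ∈ ball q.1 q.2 ↔ ‖p.1 - q.1‖ < q.2 := by
  obtain ⟨y, rfl, hy⟩ := hx
  rw [coe_mem_ball]
  constructor
  · intro h
    exact lt_of_le_of_lt (hI K y p.1 q.1).2.1 (max_lt (lt_of_lt_of_le hy hpq) h)
  · intro h
    refine lt_of_le_of_lt (hI K y q.1 p.1).1 (max_lt (lt_of_lt_of_le hy hpq) ?_)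
    rwa [norm_sub_rev]

/-- the boundary point of the disc `p` has the same pattern -/
lemma pat_bd [IsUltrametricDist K] (hG : S_GLAM.{u}) {p q : K × ℝ} (hp : 0 < p.2)
    (hpq : p.2 ≤ q.2) (hd : ¬ (p.2 = q.2 ∧ ‖p.1 - q.1‖ < p.2)) :
    ((gauss p.1 p.2 hp : BA K) : P1B K) ∈ ball q.1 q.2 ↔ ‖p.1 - q.1‖ < q.2 := by
  rw [coe_mem_ball, (hG K p.1 q.1).2 p.2 hp]
  constructor
  · intro h
    exact lt_of_le_of_lt (le_max_left _ _) h
  · intro h
    refine max_lt h (lt_of_le_of_ne hpq fun he => hd ⟨he, ?_⟩)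
    rw [he]; exact h

lemma bd_notMem [IsUltrametricDist K] (hG : S_GLAM.{u}) {p : K × ℝ} (hp : 0 < p.2) :
    ((gauss p.1 p.2 hp : BA K) : P1B K) ∉ ball p.1 p.2 := by
  rw [coe_mem_ball, (hG K p.1 p.1).2 p.2 hp]
  intro h
  exact absurd (lt_of_le_of_lt (le_max_right _ _) h) (lt_irrefl _)

lemma cl_mem [IsUltrametricDist K] (hG : S_GLAM.{u}) {b a : K} {r : ℝ} :
    ((cl b : BA K) : P1B K) ∈ ball a r ↔ ‖b - a‖ < r := by
  rw [coe_mem_ball, (hG K b a).1]

end

end Pool.Agent.W800.BK
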