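import Pool.Agent.W800.BK.Ball

/-!
# S_REP: functions constant on the atoms of a finite family of discs
-/

open Polynomial Topology Filter MeasureTheory

namespace Pool.Agent.W800.BK.Rep

open Pool.Agent.W95.BK Pool.Agent.W800.BK

universe u

open Classical in
theorem main (hI : S_ISO.{u}) (hG : S_GLAM.{u}) : S_REP.{u} := by
  intro K _ _ _ F
  induction F using Finset.strongInduction with
  | H F ih =>
  intro hpos hdis v hv
  rcases F.eq_empty_or_nonempty with rfl | hne
  · refine ⟨v OnePoint.infty, fun _ => 0, fun x => ?_⟩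
    rw [Finset.sum_empty, add_zero]
    exact hv _ _ (by simp)
  obtain ⟨p, hpF, hmin⟩ := F.exists_min_image (fun q => q.2) hne
  have hp := hpos p hpF
  set z : P1B K := ((gauss p.1 p.2 hp : BA K) : P1B K) with hz
  set κ : P1B K := ((cl p.1 : BA K) : P1B K) with hκ
  have hκp : κ ∈ ball p.1 p.2 := by
    rw [hκ, cl_mem hG]; simpa using hp
  have hzp : z ∉ ball p.1 p.2 := bd_notMem hG hp
  -- the point x̂
  set hat : P1B K → P1B K := fun x => if x ∈ ball p.1 p.2 then z else x with hhat
  have hhatp : ∀ x, hat x ∉ ball p.1 p.2 := by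
    intro x
    by_cases hx : x ∈ ball p.1 p.2
    · simp only [hhat, if_pos hx]; exact hzp
    · simp only [hhat, if_neg hx]; exact hx
  have hhatq : ∀ x, ∀ q ∈ F.erase p, (hat x ∈ ball q.1 q.2 ↔ x ∈ ball q.1 q.2) := by
    intro x q hq
    obtain ⟨hqp, hqF⟩ := Finset.mem_erase.1 hq
    by_cases hx : x ∈ ball p.1 p.2
    · simp only [hhat, if_pos hx]
      rw [hz, pat_bd hG hp (hmin q hqF) (hdis p hpF q hqF (Ne.symm hqp)),
        pat_in hI (hmin q hqF) hx]
    · simp only [hhat, if_neg hx]
  have hval : ∀ x, v x - (if x ∈ ball p.1 p.2 then v κ - v z else 0) = v (hat x) := by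
    intro x
    by_cases hx : x ∈ ball p.1 p.2
    · simp only [hhat, if_pos hx]
      have : v x = v κ := by
        refine hv _ _ fun q hq => ?_
        rw [pat_in hI (hmin q hq) hx, pat_in hI (hmin q hq) hκp]
      rw [this]; ring
    · simp only [hhat, if_neg hx, sub_zero]
  obtain ⟨c₀, c, hc⟩ := ih (F.erase p) (Finset.erase_ssubset hpF)
    (fun q hq => hpos q (Finset.mem_of_mem_erase hq))
    (fun q hq q' hq' => hdis q (Finset.mem_of_mem_erase hq) q' (Finset.mem_of_mem_erase hq'))
    (fun x => v (hat x)) (by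
      intro x y hxy
      refine hv _ _ fun q hq => ?_
      by_cases hqp : q = p
      · subst hqp
        exact iff_of_false (hhatp x) (hhatp y)
      · have hq' : q ∈ F.erase p := Finset.mem_erase.2 ⟨hqp, hq⟩
        rw [hhatq x q hq', hhatq y q hq']
        exact hxy q hq')
  refine ⟨c₀, Function.update c p (v κ - v z), fun x => ?_⟩
  have h1 := hval x
  have h2 := hc x
  rw [← Finset.add_sum_erase F _ hpF]
  have h3 : ∑ q ∈ F.erase p, (if x ∈ ball q.1 q.2 then
      Function.update c p (v κ - v z) q else 0) =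
      ∑ q ∈ F.erase p, (if x ∈ ball q.1 q.2 then c q else 0) := by
    refine Finset.sum_congr rfl fun q hq => ?_
    rw [Function.update_of_ne (Finset.ne_of_mem_erase hq)]
  rw [h3, Function.update_self]
  linarith

end Pool.Agent.W800.BK.Rep
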